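import Pool.Agent.H920R3.NORE.C
import Pool.Agent.H354.NORE.Stmts

set_option autoImplicit false

open CategoryTheory

namespace H920NORE

section
variable {k : Type} [Field k] {C : Type} [SmallCategory C] [Preadditive C] [Linear k C]
variable (D : BD k C)

theorem coef_zero {a : C} {n m : ℕ} {T T' : Finset (C × List (Lt C))}
    {G : ∀ p : C × List (Lt C), p.1 ⟶ a} {F : ∀ q : C × List (Lt C), a ⟶ q.1}
    (hT : ∀ p ∈ T, Red D p.2 ∧ ¬ dec D p.1 p.2 ∧ p.2.length + 1 ≤ m)
    (hT' : ∀ q ∈ T', Red D q.2 ∧ nls q.1 q.2 ∧ q.2.length + 1 ≤ n)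
    (hsum : ∑ q ∈ T', ∑ p ∈ T, rw_ D q.2 (insL D p.2 p.1 q.1 (G p ≫ F q)) = 0)
    {q0 p0 : C × List (Lt C)} (hq0 : q0 ∈ T') (hp0 : p0 ∈ T) (hqn : q0.2.length + 1 = n)
    (hpm : p0.2.length + 1 = m) (j : D.B p0.1 q0.1) (hj : ¬ isid j.1) :
    (D.bs p0.1 q0.1).repr (G p0 ≫ F q0) j = 0 := by
  classical
  have h1 := DFunLike.congr_fun hsum (q0.2 ++ (⟨p0.1, q0.1, j.1⟩ : Lt C) :: p0.2)
  rw [Finsupp.finsetSum_apply, Finset.sum_eq_single q0, Finsupp.finsetSum_apply,
    Finset.sum_eq_single p0] at h1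
  · rw [mid_diag D (hT' q0 hq0).1 (hT' q0 hq0).2.1 (hT p0 hp0).1 (hT p0 hp0).2.1 j hj] at h1
    simpa using h1
  · intro p hp hne
    apply mid_zero D (hT' q0 hq0).1 (hT' q0 hq0).2.1 (hT p hp).1 (hT p hp).2.1 le_rfl
    · have := (hT p hp).2.2; omega
    · rintro ⟨h2, -, -, h3⟩
      exact hne (Prod.ext h2 h3)
  · intro h; exact absurd hp0 h
  · intro q hq hne
    rw [Finsupp.finsetSum_apply]
    apply Finset.sum_eq_zero
    intro p hp
    apply mid_zero D (hT' q hq).1 (hT' q hq).2.1 (hT p hp).1 (hT p hp).2.1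
    · have := (hT' q hq).2.2; omega
    · have := (hT p hp).2.2; omega
    · rintro ⟨-, h2, h3, -⟩
      exact hne (Prod.ext h2 h3)
  · intro h; exact absurd hq0 h

theorem dec_y {a : C} {m : ℕ} {y : HH k C} (hy : y ∈ PP D (m + 1))
    (hlast : ∀ w : List (Lt C), w.length = m + 1 → y w ≠ 0 → ∀ z w', w = z :: w' → z.2.1 = a) :
    ∃ (T : Finset (C × List (Lt C))) (G : ∀ p : C × List (Lt C), p.1 ⟶ a),
      (∀ p ∈ T, Red D p.2 ∧ ¬ dec D p.1 p.2 ∧ p.2.length + 1 ≤ m + 1) ∧
      y = ∑ p ∈ T, insL D p.2 p.1 a (G p) := by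
  apply span_dec (I := C × List (Lt C)) (fun p => (p.1 ⟶ a)) (fun p => insL D p.2 p.1 a)
    (fun p => Red D p.2 ∧ ¬ dec D p.1 p.2 ∧ p.2.length + 1 ≤ m + 1)
    ((fun w => Finsupp.single w (1 : k)) '' (y.support : Set (List (Lt C))))
  · rintro _ ⟨w, hw, rfl⟩
    have hw1 : y w ≠ 0 := by simpa using hw
    have hw2 := hy hw
    obtain ⟨hr, hl⟩ := hw2
    have key : ∀ (z : Lt C) (w' : List (Lt C)), w = z :: w' → z.2.1 = a →
        ∃ p : C × List (Lt C), (Red D p.2 ∧ ¬ dec D p.1 p.2 ∧ p.2.length + 1 ≤ m + 1) ∧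
          ∃ v, insL D p.2 p.1 a v = Finsupp.single w 1 := by
      rintro ⟨c, a', f⟩ w' rfl h
      simp only at h
      subst h
      refine ⟨(c, w'), ⟨Red.tail D hr, Red.not_dec D hr, by simpa using hl⟩, f, ?_⟩
      exact insL_good D w' ⟨c, a', f⟩ (Red.good D hr)
    by_cases hlen : w.length = m + 1
    · cases w with
      | nil => simp at hlen
      | cons z w' => exact key z w' rfl (hlast _ hlen hw1 z w' rfl)
    · by_cases hd : dec D a w
      · cases w with
        | nil => exact absurd hd (by simp [dec])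
        | cons z w' => exact key z w' rfl hd.1
      · exact ⟨(a, w), ⟨hr, hd, by simp; omega⟩, 𝟙 a, insL_id D w a⟩
  · have h1 : y ∈ Finsupp.supported k k (y.support : Set (List (Lt C))) :=
      (Finsupp.mem_supported k y).2 subset_rfl
    rw [Finsupp.supported_eq_span_single] at h1
    exact h1

theorem dec_h {a : C} {n : ℕ} {h : HH k C} (hh : h ∈ PP D (n + 1))
    (hlast : ∀ u : List (Lt C), u.length = n + 1 → h u ≠ 0 → ∀ x u', u = u' ++ [x] → x.1 = a) :
    ∃ (T : Finset (C × List (Lt C))) (F : ∀ q : C × List (Lt C), a ⟶ q.1),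
      (∀ q ∈ T, Red D q.2 ∧ nls q.1 q.2 ∧ q.2.length + 1 ≤ n + 1) ∧
      Lam D h = ∑ q ∈ T, ((LinearMap.mulLeft k (rw_ D q.2)) ∘ₗ (rho D a q.1)) (F q) := by
  apply span_dec (I := C × List (Lt C)) (fun q => (a ⟶ q.1))
    (fun q => (LinearMap.mulLeft k (rw_ D q.2)) ∘ₗ (rho D a q.1))
    (fun q => Red D q.2 ∧ nls q.1 q.2 ∧ q.2.length + 1 ≤ n + 1)
    (rw_ D '' (h.support : Set (List (Lt C))))
  · rintro _ ⟨u, hu, rfl⟩
    have hu1 : h u ≠ 0 := by simpa using hu
    obtain ⟨hr, hl⟩ := hh hu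
    have key : ∀ (x : Lt C) (u' : List (Lt C)), u = u' ++ [x] → x.1 = a →
        ∃ q : C × List (Lt C), (Red D q.2 ∧ nls q.1 q.2 ∧ q.2.length + 1 ≤ n + 1) ∧
          ∃ v, ((LinearMap.mulLeft k (rw_ D q.2)) ∘ₗ (rho D a q.1)) v = rw_ D u := by
      rintro ⟨a', c, f⟩ u' rfl h
      simp only at h
      subst h
      refine ⟨(c, u'), ⟨Red.append_left D hr, ?_, by simpa using hl⟩, f, ?_⟩
      · intro v' y hv hy
        simp only at hv
        subst hv
        have h3 := hr.2
        rw [List.append_assoc] at h3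
        have h4 := h3.right_of_append
        simp at h4
        exact h4 hy
      · rw [LinearMap.comp_apply, LinearMap.mulLeft_apply, rw_append, rw_cons, rw_nil, mul_one]
    by_cases hlen : u.length = n + 1
    · rcases List.eq_nil_or_concat u with h1 | ⟨v, x, h1⟩
      · subst h1; simp at hlen
      · rw [List.concat_eq_append] at h1
        exact key x v h1 (hlast _ hlen hu1 x v h1)
    · by_cases hn : nls a u
      · refine ⟨(a, u), ⟨hr, hn, by simp; omega⟩, 𝟙 a, ?_⟩
        rw [LinearMap.comp_apply, LinearMap.mulLeft_apply, rho_id]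
        apply LinearMap.ext; intro y; rfl
      · unfold nls at hn
        push Not at hn
        obtain ⟨v, x, h1, h2⟩ := hn
        exact key x v h1 h2
  · unfold Lam
    rw [Finsupp.linearCombination_apply, Finsupp.sum]
    apply Submodule.sum_mem
    intro u hu
    exact Submodule.smul_mem _ _ (Submodule.subset_span ⟨u, hu, rfl⟩)

theorem top_exists {n : ℕ} {h : HH k C} (hh : h ∈ PP D (n + 1)) (hn : h ∉ PP D n) :
    ∃ u : List (Lt C), u.length = n + 1 ∧ h u ≠ 0 := by
  by_contra hcon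
  push Not at hcon
  apply hn
  intro u hu
  have h1 := hh hu
  have h2 : h u ≠ 0 := by simpa using hu
  refine ⟨h1.1, ?_⟩
  have h3 := h1.2
  by_contra h4
  exact h2 (hcon u (by omega))

theorem PP_zero {h : HH k C} (hh : h ∈ PP D 0) : h = Finsupp.single [] (h []) := by
  classical
  ext w
  by_cases hw : w = []
  · subst hw; simp
  · rw [Finsupp.single_apply, if_neg (fun e => hw e.symm)]
    exact coeff_PP D hh (List.length_pos_iff.2 hw)

/-- a scalar operator drops the length -/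
theorem drop_h {u : List (Lt C)} {n : ℕ} (hu : Red D u) (hn : u.length ≤ n) {b c : C} (g : b ⟶ c)
    (hg : (∃ (e : b = c) (l : k), g = l • eqToHom e) ∨ g = 0) :
    rw_ D u * rho D b c g ∈ SS D n := by
  rcases hg with ⟨e, l, rfl⟩ | rfl
  · subst e
    rw [eqToHom_refl, map_smul, rho_id, mul_smul_comm]
    apply Submodule.smul_mem
    have h5 : rw_ D u * (LinearMap.id : HH k C →ₗ[k] HH k C) = rw_ D u := by
      apply LinearMap.ext; intro y; rfl
    rw [h5]
    exact rw_mem_SS D hu hn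
  · rw [map_zero, mul_zero]
    exact Submodule.zero_mem _

theorem drop_y {w : List (Lt C)} {n : ℕ} (hw : Red D w) (hn : w.length ≤ n) {b c : C} (g : b ⟶ c)
    (hg : (∃ (e : b = c) (l : k), g = l • eqToHom e) ∨ g = 0) :
    insL D w b c g ∈ PP D n := by
  rcases hg with ⟨e, l, rfl⟩ | rfl
  · subst e
    rw [eqToHom_refl, map_smul, insL_id]
    apply Submodule.smul_mem
    exact single_mem D hw hn 1
  · rw [map_zero]
    exact Submodule.zero_mem _

theorem main_step (hC : ∀ (X Y Z : C) (f : X ⟶ Y) (g : Y ⟶ Z), f ≠ 0 → g ≠ 0 → f ≫ g ≠ 0)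
    (n m : ℕ)
    (IH : ∀ h' ∈ PP D n, ∀ y' ∈ PP D m, Lam D h' y' = 0 → h' = 0 ∨ y' = 0)
    {h y : HH k C} (hh : h ∈ PP D (n + 1)) (hy : y ∈ PP D (m + 1)) (h0 : Lam D h y = 0)
    (hhn : h ∉ PP D n) (hym : y ∉ PP D m) : False := by
  classical
  obtain ⟨u1, hu1, hu1'⟩ := top_exists D hh hhn
  obtain ⟨w1, hw1, hw1'⟩ := top_exists D hy hym
  obtain ⟨x1, v1, rfl⟩ : ∃ x v, u1 = v ++ [x] := by
    rcases List.eq_nil_or_concat u1 with h1 | ⟨v, x, h1⟩
    · subst h1; simp at hu1
    · rw [List.concat_eq_append] at h1; exact ⟨x, v, h1⟩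
  obtain ⟨z1, t1, rfl⟩ : ∃ z t, w1 = z :: t := by
    cases w1 with
    | nil => simp at hw1
    | cons z t => exact ⟨z, t, rfl⟩
  have hred : ∀ (x : Lt C) (v : List (Lt C)) (z : Lt C) (t : List (Lt C)),
      (v ++ [x]).length = n + 1 → (z :: t).length = m + 1 → h (v ++ [x]) ≠ 0 → y (z :: t) ≠ 0 →
      x.1 = z.2.1 := by
    intro x v z t h1 h2 h3 h4
    by_contra hne
    have h5 : Red D (v ++ [x]) := (hh (by simpa using h3 : (v ++ [x]) ∈ (h.support : Set _))).1
    have h6 : Red D (z :: t) := (hy (by simpa using h4 : (z :: t) ∈ (y.support : Set _))).1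
    have h7 := top_coeff D hh hy h1 h2 (Red.app D h5 h6 hne)
    rw [h0] at h7
    exact mul_ne_zero h3 h4 h7.symm
  have ha := hred x1 v1 z1 t1 hu1 hw1 hu1' hw1'
  obtain ⟨T, G, hT, hG⟩ := dec_y D (a := x1.1) hy (by
    rintro w h1 h2 z w' rfl
    exact (hred x1 v1 z w' hu1 h1 hu1' h2).symm)
  obtain ⟨T', F, hT', hF⟩ := dec_h D (a := x1.1) hh (by
    rintro u h1 h2 x u' rfl
    rw [ha]
    exact hred x u' z1 t1 h1 hw1 h2 hw1')
  generalize x1.1 = a at *
  have hsum : ∑ q ∈ T', ∑ p ∈ T, rw_ D q.2 (insL D p.2 p.1 q.1 (G p ≫ F q)) = 0 := by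
    rw [← h0, hF, LinearMap.sum_apply]
    apply Finset.sum_congr rfl
    intro q _
    rw [hG, map_sum]
    apply Finset.sum_congr rfl
    intro p hp
    rw [LinearMap.comp_apply, LinearMap.mulLeft_apply, Module.End.mul_apply,
      rho_ins D _ _ (hT p hp).2.1]
  have hscal : ∀ q ∈ T', ∀ p ∈ T, q.2.length = n → p.2.length = m →
      (∃ (e : p.1 = q.1) (l : k), G p ≫ F q = l • eqToHom e) ∨ G p ≫ F q = 0 := by
    intro q hq p hp h1 h2
    apply only_id D
    intro j hj
    exact coef_zero D hT hT' hsum hq hp (by omega) (by omega) j hj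
  -- existence of top terms
  obtain ⟨q0, hq0, hq0n, hq0F⟩ : ∃ q ∈ T', q.2.length = n ∧ F q ≠ 0 := by
    by_contra hcon
    push Not at hcon
    apply hhn
    have h1 : Lam D h ∈ SS D n := by
      rw [hF]
      apply Submodule.sum_mem
      intro q hq
      rw [LinearMap.comp_apply, LinearMap.mulLeft_apply]
      by_cases h2 : q.2.length = n
      · rw [hcon q hq h2, map_zero, mul_zero]; exact Submodule.zero_mem _
      · have h3 := (hT' q hq).2.2
        exact SS_mono D (by omega) (rw_rho_mem' D (hT' q hq).1 (F q))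
    obtain ⟨h', hh', h2⟩ := h1
    have h3 := Lam_one D hh
    rw [← h2, Lam_one D hh'] at h3
    rw [← h3]
    exact hh'
  obtain ⟨p0, hp0, hp0m, hp0G⟩ : ∃ p ∈ T, p.2.length = m ∧ G p ≠ 0 := by
    by_contra hcon
    push Not at hcon
    apply hym
    rw [hG]
    apply Submodule.sum_mem
    intro p hp
    by_cases h2 : p.2.length = m
    · rw [hcon p hp h2, map_zero]; exact Submodule.zero_mem _
    · have h3 := (hT p hp).2.2
      exact PP_mono D (by omega) (insL_mem D (hT p hp).1 (hT p hp).2.1 (G p))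
  obtain ⟨e0, l, hl⟩ := (hscal q0 hq0 p0 hp0 hq0n hp0m).resolve_right
    (hC _ _ _ _ _ hp0G hq0F)
  -- the two mutually inverse morphisms
  obtain ⟨G0, hG0⟩ : ∃ g : q0.1 ⟶ a, g = eqToHom e0.symm ≫ G p0 := ⟨_, rfl⟩
  have hGF : G0 ≫ F q0 = l • 𝟙 q0.1 := by
    rw [hG0, Category.assoc, hl, Linear.comp_smul, eqToHom_trans, eqToHom_refl]
  have hG0ne : G0 ≠ 0 := by
    intro h1
    apply hp0G
    have h2 : G p0 = eqToHom e0 ≫ G0 := by
      rw [hG0, ← Category.assoc, eqToHom_trans, eqToHom_refl, Category.id_comp]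
    rw [h2, h1, Limits.comp_zero]
  have hlne : l ≠ 0 := by
    intro h1
    apply hC _ _ _ _ _ hG0ne hq0F
    rw [hGF, h1, zero_smul]
  have hFG : F q0 ≫ G0 = l • 𝟙 a := by
    by_contra hne
    have h1 : F q0 ≫ G0 - l • 𝟙 a ≠ 0 := sub_ne_zero.2 hne
    apply hC _ _ _ _ _ h1 hq0F
    rw [Preadditive.sub_comp, Category.assoc, hGF, Linear.comp_smul, Linear.smul_comp,
      Category.comp_id, Category.id_comp, sub_self]
  -- the modified operator
  have hs' : Lam D h * rho D q0.1 a G0 ∈ SS D n := by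
    rw [hF, Finset.sum_mul]
    apply Submodule.sum_mem
    intro q hq
    rw [LinearMap.comp_apply, LinearMap.mulLeft_apply, mul_assoc]
    have h1 : (rho D a q.1 (F q) : Module.End k (HH k C)) * rho D q0.1 a G0 =
        rho D q0.1 q.1 (G0 ≫ F q) := (rho_comp D G0 (F q)).symm
    rw [h1]
    by_cases h2 : q.2.length = n
    · apply drop_h D (hT' q hq).1 h2.le
      rcases hscal q hq p0 hp0 h2 hp0m with ⟨e, l', h3⟩ | h3
      · left
        refine ⟨e0.symm.trans e, l', ?_⟩
        rw [hG0, Category.assoc, h3, Linear.comp_smul, eqToHom_trans]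
      · right
        rw [hG0, Category.assoc, h3, Limits.comp_zero]
    · have h3 := (hT' q hq).2.2
      exact SS_mono D (by omega) (rw_rho_mem' D (hT' q hq).1 _)
  have hy' : rho D a q0.1 (F q0) y ∈ PP D m := by
    rw [hG, map_sum]
    apply Submodule.sum_mem
    intro p hp
    rw [rho_ins D _ _ (hT p hp).2.1]
    by_cases h2 : p.2.length = m
    · exact drop_y D (hT p hp).1 h2.le _ (hscal q0 hq0 p hp hq0n h2)
    · have h3 := (hT p hp).2.2
      exact PP_mono D (by omega) (insL_mem D (hT p hp).1 (hT p hp).2.1 _)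
  have hr1 : ∀ v : HH k C, rho D q0.1 a G0 (rho D a q0.1 (F q0) v) = l • v := by
    intro v
    have h1 := LinearMap.congr_fun (rho_comp D (F q0) G0) v
    rw [LinearMap.comp_apply] at h1
    rw [← h1, hFG, map_smul, rho_id]
    rfl
  obtain ⟨h', hh', h1⟩ := hs'
  have h2 : Lam D h' (rho D a q0.1 (F q0) y) = 0 := by
    rw [h1, Module.End.mul_apply, hr1, map_smul, h0, smul_zero]
  rcases IH h' hh' _ hy' h2 with h3 | h3
  · rw [h3, map_zero] at h1
    apply hhn
    have h4 : Lam D h = 0 := by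
      apply LinearMap.ext
      intro v
      have h5 := LinearMap.congr_fun h1 (rho D a q0.1 (F q0) v)
      rw [Module.End.mul_apply, hr1, map_smul] at h5
      have h6 : l • (Lam D h v) = 0 := h5.symm
      exact (smul_eq_zero.1 h6).resolve_left hlne
    have h5 := Lam_one D hh
    rw [h4] at h5
    rw [← h5]
    exact Submodule.zero_mem _
  · apply hym
    have h4 := hr1 y
    rw [h3, map_zero] at h4
    have h5 := (smul_eq_zero.1 h4.symm).resolve_left hlne
    rw [h5]
    exact Submodule.zero_mem _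

theorem main_claim (hC : ∀ (X Y Z : C) (f : X ⟶ Y) (g : Y ⟶ Z), f ≠ 0 → g ≠ 0 → f ≫ g ≠ 0) :
    ∀ (N n m : ℕ), n + m ≤ N → ∀ h ∈ PP D n, ∀ y ∈ PP D m, Lam D h y = 0 → h = 0 ∨ y = 0 := by
  have z1 : ∀ h ∈ PP D 0, ∀ y : HH k C, Lam D h y = 0 → h = 0 ∨ y = 0 := by
    intro h hh y h0
    rw [PP_zero D hh, Lam_single, rw_nil] at h0
    have h1 : (h []) • y = 0 := h0
    rcases smul_eq_zero.1 h1 with h2 | h2
    · left; rw [PP_zero D hh, h2]; simp
    · right; exact h2
  have z2 : ∀ (n : ℕ), ∀ h ∈ PP D n, ∀ y ∈ PP D 0, Lam D h y = 0 → h = 0 ∨ y = 0 := by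
    intro n h hh y hy h0
    have h1 : y = (y []) • Finsupp.single [] (1 : k) := by
      rw [Finsupp.smul_single, smul_eq_mul, mul_one]; exact PP_zero D hy
    rw [h1, map_smul, Lam_one D hh] at h0
    rcases smul_eq_zero.1 h0 with h2 | h2
    · right; rw [h1, h2, zero_smul]
    · left; exact h2
  intro N
  induction N with
  | zero =>
    intro n m hnm h hh y hy h0
    obtain rfl : n = 0 := by omega
    exact z1 h hh y h0
  | succ N ih =>
    intro n m hnm h hh y hy h0
    cases n with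
    | zero => exact z1 h hh y h0
    | succ n =>
      cases m with
      | zero => exact z2 _ h hh y hy h0
      | succ m =>
        by_cases h1 : h ∈ PP D n
        · exact ih n (m + 1) (by omega) h h1 y hy h0
        · by_cases h2 : y ∈ PP D m
          · exact ih (n + 1) m (by omega) h hh y h2 h0
          · exact (main_step D hC n m (ih n m (by omega)) hh hy h0 h1 h2).elim

end

theorem taskT0 (k : Type) [Field k] : H354P.TaskT0 k := by
  intro C _ _ _ hC hid _
  obtain ⟨D⟩ := exists_BD k C hid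
  let gens : Set (Module.End k (HH k C)) := {t | ∃ (a b : C) (g : a ⟶ b), t = rho D a b g}
  let S := Algebra.adjoin k gens
  have hS : ∀ s ∈ S, ∃ n, s ∈ SS D n := by
    intro s hs
    induction hs using Algebra.adjoin_induction with
    | mem x hx =>
      obtain ⟨a, b, g, rfl⟩ := hx
      refine ⟨1, ?_⟩
      have h1 := rw_rho_mem' D (Red.nil D) g
      rw [rw_nil, one_mul] at h1
      exact h1
    | algebraMap r =>
      refine ⟨0, ?_⟩
      rw [Algebra.algebraMap_eq_smul_one]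
      exact Submodule.smul_mem _ _ (rw_mem_SS D (Red.nil D) le_rfl)
    | add x y _ _ hx hy =>
      obtain ⟨n, hn⟩ := hx
      obtain ⟨m, hm⟩ := hy
      exact ⟨max n m, Submodule.add_mem _ (SS_mono D (le_max_left _ _) hn)
        (SS_mono D (le_max_right _ _) hm)⟩
    | mul x y _ _ hx hy =>
      obtain ⟨n, hn⟩ := hx
      obtain ⟨m, hm⟩ := hy
      exact ⟨n + m, SS_mul D hn hm⟩
  have h1 : NoZeroDivisors S := by
    refine ⟨?_⟩
    rintro ⟨s, hs⟩ ⟨t, ht⟩ hst
    have hst' : s * t = 0 := congrArg Subtype.val hst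
    obtain ⟨n, h, hh, rfl⟩ := hS s hs
    obtain ⟨m, h', hh', rfl⟩ := hS t ht
    have h1 : Lam D h (Lam D h' (Finsupp.single [] 1)) = 0 := by
      have := LinearMap.congr_fun hst' (Finsupp.single [] 1)
      rw [Module.End.mul_apply] at this
      exact this
    rw [Lam_one D hh'] at h1
    rcases main_claim D hC (n + m) n m le_rfl h hh h' hh' h1 with h2 | h2
    · left; apply Subtype.ext
      change Lam D h = 0
      rw [h2, map_zero]
    · right; apply Subtype.ext
      change Lam D h' = 0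
      rw [h2, map_zero]
  have h2 : Nontrivial S := by
    refine ⟨0, 1, ?_⟩
    intro h
    have h3 : (0 : Module.End k (HH k C)) = 1 := congrArg Subtype.val h
    have h4 := LinearMap.congr_fun h3 (Finsupp.single [] 1)
    have h5 : (0 : HH k C) = Finsupp.single [] 1 := h4
    have h6 := DFunLike.congr_fun h5 []
    simp at h6
  letI i1 : Ring S := @Subalgebra.toRing k (Module.End k (HH k C)) _ _ _ S
  letI i2 : Algebra k S := S.algebra
  have h3 : IsDomain S := NoZeroDivisors.to_isDomain S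
  refine ⟨S, i1, i2, h3, fun X Y =>
    { toFun := fun g => ⟨rho D X Y g, Algebra.subset_adjoin ⟨X, Y, g, rfl⟩⟩
      map_add' := fun g g' => Subtype.ext (map_add _ _ _)
      map_smul' := fun r g => Subtype.ext (map_smul _ _ _) }, ?_, ?_, ?_⟩
  · intro X Y g g' h
    exact rho_inj D X Y (congrArg Subtype.val h)
  · intro X
    apply Subtype.ext
    exact rho_id D X
  · intro X Y Z f g
    apply Subtype.ext
    exact rho_comp D f g

end H920NORE
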