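import Mathlib

set_option autoImplicit false

open CategoryTheory

namespace H920NORE

section
variable (k : Type) [Field k] (C : Type) [SmallCategory C] [Preadditive C] [Linear k C]

/-- bases of the Hom spaces consisting of morphisms -/
structure BD where
  B : ∀ a b : C, Set (a ⟶ b)
  bs : ∀ a b, Module.Basis (B a b) k (a ⟶ b)
  val : ∀ a b (i : B a b), bs a b i = i
  one : ∀ a, 𝟙 a ∈ B a a

theorem exists_BD (hid : ∀ X : C, 𝟙 X ≠ 0) : Nonempty (BD k C) := by
  have h1 : ∀ a b : C, LinearIndepOn k id {f : a ⟶ b | ∃ h : a = b, f = eqToHom h} := by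
    intro a b
    by_cases h : a = b
    · subst h
      have : {f : a ⟶ a | ∃ h : a = a, f = eqToHom h} = {𝟙 a} := by
        ext f; simp
      rw [this]
      exact LinearIndepOn.singleton (hid a)
    · have : {f : a ⟶ b | ∃ h : a = b, f = eqToHom h} = ∅ := by
        ext f; simp [h]
      rw [this]
      exact linearIndepOn_empty k id
  refine ⟨⟨fun a b => (h1 a b).extend (Set.subset_univ _), fun a b => Module.Basis.extend (h1 a b),
    fun a b i => Module.Basis.extend_apply_self _ _, fun a => ?_⟩⟩
  exact Module.Basis.subset_extend (h1 a a) ⟨rfl, rfl⟩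

variable {C}

def isid {a b : C} (f : a ⟶ b) : Prop := ∃ h : a = b, f = eqToHom h

variable (C) in
abbrev Lt := Σ (a b : C), (a ⟶ b)

variable {k}
variable (D : BD k C)

def good (x : Lt C) : Prop := x.2.2 ∈ D.B x.1 x.2.1 ∧ ¬ isid x.2.2

def dec : C → List (Lt C) → Prop
  | _, [] => False
  | b, x :: w => x.2.1 = b ∧ good D x ∧ ¬ dec x.1 w

open Classical in
noncomputable def star (w : List (Lt C)) {a c : C} (i : D.B a c) : List (Lt C) :=
  if isid i.1 then w else ⟨a, c, i.1⟩ :: w

theorem star_inj (w : List (Lt C)) (a c : C) : Function.Injective (star D w (a := a) (c := c)) := by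
  intro i j h
  unfold star at h
  by_cases hi : isid i.1
  · rw [if_pos hi] at h
    by_cases hj : isid j.1
    · obtain ⟨h1, h2⟩ := hi
      obtain ⟨h3, h4⟩ := hj
      exact Subtype.ext (h2.trans h4.symm)
    · rw [if_neg hj] at h
      exact absurd (congrArg List.length h) (by simp)
  · rw [if_neg hi] at h
    by_cases hj : isid j.1
    · rw [if_pos hj] at h
      exact absurd (congrArg List.length h) (by simp)
    · rw [if_neg hj] at h
      have h1 := (List.cons.inj h).1
      have h2 := eq_of_heq (Sigma.mk.inj h1).2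
      have h3 := eq_of_heq (Sigma.mk.inj h2).2
      exact Subtype.ext h3

abbrev HH (k : Type) [Field k] (C : Type) [SmallCategory C] := List (Lt C) →₀ k

noncomputable def insL (w : List (Lt C)) (a c : C) : (a ⟶ c) →ₗ[k] HH k C :=
  (Finsupp.lmapDomain k k (star D w (a := a) (c := c))) ∘ₗ (D.bs a c).repr.toLinearMap

theorem insL_inj (w : List (Lt C)) (a c : C) : Function.Injective (insL D w a c) := by
  unfold insL
  rw [LinearMap.coe_comp]
  exact (Finsupp.mapDomain_injective (star_inj D w a c)).comp (D.bs a c).repr.injective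

theorem insL_basis (w : List (Lt C)) {a c : C} (i : D.B a c) :
    insL D w a c (i : a ⟶ c) = Finsupp.single (star D w i) 1 := by
  have h1 : (i : a ⟶ c) = D.bs a c i := (D.val a c i).symm
  rw [h1]
  simp [insL]

theorem insL_id (w : List (Lt C)) (a : C) : insL D w a a (𝟙 a) = Finsupp.single w 1 := by
  have h := insL_basis D w (⟨𝟙 a, D.one a⟩ : D.B a a)
  rw [show ((⟨𝟙 a, D.one a⟩ : D.B a a) : a ⟶ a) = 𝟙 a from rfl] at h
  rw [h]
  congr 1
  unfold star
  rw [if_pos ⟨rfl, by simp⟩]

theorem insL_good (w : List (Lt C)) (x : Lt C) (hx : good D x) :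
    insL D w x.1 x.2.1 x.2.2 = Finsupp.single (x :: w) 1 := by
  have h := insL_basis D w (⟨x.2.2, hx.1⟩ : D.B x.1 x.2.1)
  rw [show ((⟨x.2.2, hx.1⟩ : D.B x.1 x.2.1) : x.1 ⟶ x.2.1) = x.2.2 from rfl] at h
  rw [h]
  congr 1
  unfold star
  rw [if_neg hx.2]

open Classical in
noncomputable def actL (b c : C) : List (Lt C) → ((b ⟶ c) →ₗ[k] HH k C)
  | [] => insL D [] b c
  | x :: w => if h : x.2.1 = b ∧ good D x ∧ ¬ dec D x.1 w then
      (insL D w x.1 c) ∘ₗ (Linear.leftComp k c (x.2.2 ≫ eqToHom h.1)) else insL D (x :: w) b c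

theorem actL_not {b c : C} {w : List (Lt C)} (h : ¬ dec D b w) : actL D b c w = insL D w b c := by
  cases w with
  | nil => rfl
  | cons x w => exact dif_neg h

theorem actL_dec {a b c : C} {f : a ⟶ b} {w : List (Lt C)} (hg : good D ⟨a, b, f⟩) (h : ¬ dec D a w)
    (g : b ⟶ c) : actL D b c (⟨a, b, f⟩ :: w) g = insL D w a c (f ≫ g) := by
  have h1 : actL D b c (⟨a, b, f⟩ :: w) =
      (insL D w a c) ∘ₗ (Linear.leftComp k c (f ≫ eqToHom rfl)) := dif_pos ⟨rfl, hg, h⟩
  rw [h1]
  simp

noncomputable def rho (b c : C) : (b ⟶ c) →ₗ[k] (HH k C →ₗ[k] HH k C) where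
  toFun g := Finsupp.linearCombination k (fun w => actL D b c w g)
  map_add' g g' := by
    ext w : 1
    ext
    simp
  map_smul' r g := by
    ext w : 1
    ext
    simp

theorem rho_single {b c : C} (g : b ⟶ c) (w : List (Lt C)) :
    rho D b c g (Finsupp.single w 1) = actL D b c w g := by
  simp [rho]

theorem rho_ins {a b c : C} (f : a ⟶ b) (g : b ⟶ c) {w : List (Lt C)} (h : ¬ dec D a w) :
    rho D b c g (insL D w a b f) = insL D w a c (f ≫ g) := by
  have key : (rho D b c g) ∘ₗ (insL D w a b) = (insL D w a c) ∘ₗ (Linear.rightComp k a g) := by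
    apply (D.bs a b).ext
    intro i
    rw [LinearMap.comp_apply, LinearMap.comp_apply, D.val, insL_basis, rho_single,
      Linear.rightComp_apply]
    by_cases hi : isid i.1
    · obtain ⟨h1, h2⟩ := hi
      subst h1
      have h3 : star D w i = w := by
        unfold star; rw [if_pos ⟨rfl, h2⟩]
      rw [h3, actL_not D h, h2]
      simp
    · have h3 : star D w i = ⟨a, b, i.1⟩ :: w := by
        unfold star; rw [if_neg hi]
      rw [h3, actL_dec D ⟨i.2, hi⟩ h]
  exact LinearMap.congr_fun key f

theorem rho_comp {a b c : C} (f : a ⟶ b) (g : b ⟶ c) :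
    rho D a c (f ≫ g) = (rho D b c g) ∘ₗ (rho D a b f) := by
  apply Finsupp.lhom_ext'
  intro w
  apply LinearMap.ext_ring
  rw [LinearMap.comp_apply, LinearMap.comp_apply, LinearMap.comp_apply]
  rw [Finsupp.lsingle_apply, rho_single, rho_single]
  by_cases h : dec D a w
  · cases w with
    | nil => exact absurd h (by simp [dec])
    | cons x w =>
      obtain ⟨a', b', x⟩ := x
      obtain ⟨h1, h2, h3⟩ := h
      simp only at h1
      subst h1
      rw [actL_dec D h2 h3, actL_dec D h2 h3, rho_ins D _ _ h3, Category.assoc]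
  · rw [actL_not D h, actL_not D h, rho_ins D _ _ h]

theorem rho_id (a : C) : rho D a a (𝟙 a) = LinearMap.id := by
  apply Finsupp.lhom_ext'
  intro w
  apply LinearMap.ext_ring
  rw [LinearMap.comp_apply, LinearMap.comp_apply, Finsupp.lsingle_apply, rho_single]
  by_cases h : dec D a w
  · cases w with
    | nil => exact absurd h (by simp [dec])
    | cons x w =>
      obtain ⟨a', b', x⟩ := x
      obtain ⟨h1, h2, h3⟩ := h
      simp only at h1
      subst h1
      rw [actL_dec D h2 h3, Category.comp_id]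
      exact insL_good D w ⟨a', b', x⟩ h2
  · rw [actL_not D h, insL_id]
    rfl

theorem rho_inj (a b : C) : Function.Injective (rho D a b) := by
  rw [injective_iff_map_eq_zero]
  intro g hg
  have h1 := LinearMap.congr_fun hg (Finsupp.single [] 1)
  rw [rho_single, actL_not D (by simp [dec])] at h1
  apply insL_inj D [] a b
  rw [h1, map_zero]
  rfl

end

end H920NORE
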