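import Pool.Agent.H920R3.NORE.A

set_option autoImplicit false

open CategoryTheory

namespace H920NORE

section
variable {k : Type} [Field k] {C : Type} [SmallCategory C] [Preadditive C] [Linear k C]
variable (D : BD k C)

/-- reduced words -/
def Red (w : List (Lt C)) : Prop := (∀ x ∈ w, good D x) ∧ w.IsChain (fun x y => x.1 ≠ y.2.1)

theorem Red.nil : Red D [] := ⟨by simp, by simp⟩

theorem Red.tail {x : Lt C} {w : List (Lt C)} (h : Red D (x :: w)) : Red D w :=
  ⟨fun y hy => h.1 y (List.mem_cons_of_mem _ hy), h.2.tail⟩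

theorem Red.not_dec {x : Lt C} {w : List (Lt C)} (h : Red D (x :: w)) : ¬ dec D x.1 w := by
  cases w with
  | nil => simp [dec]
  | cons y w =>
    rintro ⟨h1, -⟩
    have h2 := h.2
    rw [List.isChain_cons_cons] at h2
    exact h2.1 h1.symm

theorem Red.good {x : Lt C} {w : List (Lt C)} (h : Red D (x :: w)) : good D x :=
  h.1 x List.mem_cons_self

theorem Red.cons {x : Lt C} {w : List (Lt C)} (hx : H920NORE.good D x) (h : Red D w)
    (hd : ¬ dec D x.1 w) : Red D (x :: w) := by
  refine ⟨?_, ?_⟩
  · intro y hy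
    rcases List.mem_cons.1 hy with rfl | hy
    · exact hx
    · exact h.1 y hy
  · cases w with
    | nil => simp
    | cons y w =>
      rw [List.isChain_cons_cons]
      refine ⟨?_, h.2⟩
      intro h1
      exact hd ⟨h1.symm, h.good, h.not_dec⟩

theorem Red.append_left {u w : List (Lt C)} (h : Red D (u ++ w)) : Red D u :=
  ⟨fun y hy => h.1 y (List.mem_append_left _ hy), h.2.left_of_append⟩

theorem Red.append_right {u w : List (Lt C)} (h : Red D (u ++ w)) : Red D w :=
  ⟨fun y hy => h.1 y (List.mem_append_right _ hy), h.2.right_of_append⟩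

/-- vectors supported on reduced words of length at most `n` -/
def PP (n : ℕ) : Submodule k (HH k C) := Finsupp.supported k k {w | Red D w ∧ w.length ≤ n}

theorem PP_mono {n m : ℕ} (h : n ≤ m) : PP D n ≤ PP D m :=
  Finsupp.supported_mono fun _ hw => ⟨hw.1, hw.2.trans h⟩

theorem single_mem {w : List (Lt C)} {n : ℕ} (h : Red D w) (hn : w.length ≤ n) (c : k) :
    Finsupp.single w c ∈ PP D n := Finsupp.single_mem_supported k c ⟨h, hn⟩

theorem coeff_PP {n : ℕ} {y : HH k C} (hy : y ∈ PP D n) {w : List (Lt C)} (hw : n < w.length) :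
    y w = 0 := by
  by_contra h
  have h1 : w ∈ (y.support : Set (List (Lt C))) := by simpa using h
  have := hy h1
  exact absurd this.2 (by omega)

theorem insL_mem {w : List (Lt C)} {a c : C} (hw : Red D w) (hd : ¬ dec D a w) (f : a ⟶ c) :
    insL D w a c f ∈ PP D (w.length + 1) := by
  have h1 : f ∈ Submodule.span k (Set.range (D.bs a c)) := by rw [(D.bs a c).span_eq]; trivial
  have h2 : Submodule.span k (Set.range (D.bs a c)) ≤ (PP D (w.length + 1)).comap (insL D w a c) := by
    rw [Submodule.span_le]
    rintro _ ⟨i, rfl⟩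
    rw [SetLike.mem_coe, Submodule.mem_comap, D.val, insL_basis]
    by_cases hi : isid i.1
    · have h3 : star D w i = w := by unfold star; rw [if_pos hi]
      rw [h3]
      exact single_mem D hw (by omega) _
    · have h3 : star D w i = ⟨a, c, i.1⟩ :: w := by unfold star; rw [if_neg hi]
      rw [h3]
      exact single_mem D (Red.cons D ⟨i.2, hi⟩ hw hd) (by simp) _
  exact h2 h1

theorem rho_mem {b c : C} (g : b ⟶ c) {n : ℕ} {y : HH k C} (hy : y ∈ PP D n) :
    rho D b c g y ∈ PP D (n + 1) := by
  have h1 : PP D n = Submodule.span k ((fun w => Finsupp.single w (1 : k)) '' {w | Red D w ∧ w.length ≤ n}) :=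
    Finsupp.supported_eq_span_single k _
  have h2 : PP D n ≤ (PP D (n + 1)).comap (rho D b c g) := by
    rw [h1, Submodule.span_le]
    rintro _ ⟨w, ⟨hw, hn⟩, rfl⟩
    rw [SetLike.mem_coe, Submodule.mem_comap]
    simp only
    rw [rho_single]
    by_cases h : dec D b w
    · cases w with
      | nil => exact absurd h (by simp [dec])
      | cons x w =>
        obtain ⟨a', b', x⟩ := x
        obtain ⟨h1, h2, h3⟩ := h
        simp only at h1
        subst h1
        rw [actL_dec D h2 h3]
        apply PP_mono D _ (insL_mem D hw.tail h3 _)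
        simp at hn; omega
    · rw [actL_not D h]
      exact PP_mono D (by omega) (insL_mem D hw h _)
  exact h2 hy

/-- product of the operators of the letters of a word -/
noncomputable def rw_ (u : List (Lt C)) : Module.End k (HH k C) :=
  (u.map fun x => (rho D x.1 x.2.1 x.2.2 : Module.End k (HH k C))).prod

theorem rw_nil : rw_ D [] = 1 := rfl

theorem rw_cons (x : Lt C) (u : List (Lt C)) : rw_ D (x :: u) = rho D x.1 x.2.1 x.2.2 * rw_ D u := by
  simp [rw_]

theorem rw_append (u v : List (Lt C)) : rw_ D (u ++ v) = rw_ D u * rw_ D v := by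
  simp [rw_]

theorem rw_single {u w : List (Lt C)} (h : Red D (u ++ w)) :
    rw_ D u (Finsupp.single w 1) = Finsupp.single (u ++ w) 1 := by
  induction u with
  | nil => rfl
  | cons x u ih =>
    have h' : Red D (x :: (u ++ w)) := h
    rw [rw_cons, Module.End.mul_apply, ih (Red.tail D h'), rho_single,
      actL_not D (Red.not_dec D h'), insL_good D _ x (Red.good D h')]
    rfl

theorem rw_mem (u : List (Lt C)) {n : ℕ} {y : HH k C} (hy : y ∈ PP D n) :
    rw_ D u y ∈ PP D (n + u.length) := by
  induction u with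
  | nil => exact hy
  | cons x u ih =>
    rw [rw_cons, Module.End.mul_apply]
    exact rho_mem D _ ih

/-- linear extension -/
noncomputable def Lam : HH k C →ₗ[k] Module.End k (HH k C) := Finsupp.linearCombination k (rw_ D)

theorem Lam_single (u : List (Lt C)) (c : k) : Lam D (Finsupp.single u c) = c • rw_ D u := by
  simp [Lam]

theorem Lam_one {n : ℕ} {h : HH k C} (hh : h ∈ PP D n) : Lam D h (Finsupp.single [] 1) = h := by
  have h1 : PP D n = Submodule.span k ((fun w => Finsupp.single w (1 : k)) '' {w | Red D w ∧ w.length ≤ n}) :=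
    Finsupp.supported_eq_span_single k _
  rw [h1] at hh
  induction hh using Submodule.span_induction with
  | mem x hx =>
    obtain ⟨w, hw, rfl⟩ := hx
    simp only
    rw [Lam_single, one_smul, rw_single D (by simpa using hw.1), List.append_nil]
  | zero => simp
  | add x y _ _ hx hy => rw [map_add, LinearMap.add_apply, hx, hy]
  | smul c x _ hx => rw [map_smul, LinearMap.smul_apply, hx]

/-- operators of length at most `n` -/
noncomputable def SS (n : ℕ) : Submodule k (Module.End k (HH k C)) := (PP D n).map (Lam D)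

theorem SS_mono {n m : ℕ} (h : n ≤ m) : SS D n ≤ SS D m := Submodule.map_mono (PP_mono D h)

theorem rw_mem_SS {u : List (Lt C)} (hu : Red D u) {n : ℕ} (h : u.length ≤ n) : rw_ D u ∈ SS D n :=
  ⟨Finsupp.single u 1, single_mem D hu h 1, by rw [Lam_single, one_smul]⟩

/-- `b` is not the source of the last letter -/
def nls (b : C) (u : List (Lt C)) : Prop := ∀ (v : List (Lt C)) (x : Lt C), u = v ++ [x] → x.1 ≠ b

theorem Red.snoc {x : Lt C} {u : List (Lt C)} (hx : H920NORE.good D x) (h : Red D u)
    (hd : nls x.2.1 u) : Red D (u ++ [x]) := by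
  refine ⟨?_, ?_⟩
  · intro y hy
    rcases List.mem_append.1 hy with hy | hy
    · exact h.1 y hy
    · rw [List.mem_singleton] at hy
      rw [hy]; exact hx
  · rw [List.isChain_append]
    refine ⟨h.2, by simp, ?_⟩
    intro y hy z hz
    simp at hz
    subst hz
    rcases List.eq_nil_or_concat u with rfl | ⟨v, y', rfl⟩
    · simp at hy
    · simp at hy
      subst hy
      exact hd v y' (by simp)

theorem rw_rho_mem {u : List (Lt C)} (hu : Red D u) {a b : C} (hn : nls b u) (g : a ⟶ b) :
    rw_ D u * rho D a b g ∈ SS D (u.length + 1) := by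
  have h1 : g ∈ Submodule.span k (Set.range (D.bs a b)) := by rw [(D.bs a b).span_eq]; trivial
  have h2 : Submodule.span k (Set.range (D.bs a b)) ≤
      (SS D (u.length + 1)).comap ((LinearMap.mulLeft k (rw_ D u)) ∘ₗ (rho D a b)) := by
    rw [Submodule.span_le]
    rintro _ ⟨i, rfl⟩
    rw [SetLike.mem_coe, Submodule.mem_comap, D.val, LinearMap.comp_apply, LinearMap.mulLeft_apply]
    by_cases hi : isid i.1
    · obtain ⟨h3, h4⟩ := hi
      subst h3
      rw [h4, eqToHom_refl, rho_id]
      have h5 : rw_ D u * (LinearMap.id : HH k C →ₗ[k] HH k C) = rw_ D u := by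
        apply LinearMap.ext; intro y; rfl
      rw [h5]
      exact rw_mem_SS D hu (by omega)
    · have h3 := rw_append D u [⟨a, b, i.1⟩]
      have h4 : rw_ D [⟨a, b, i.1⟩] = rho D a b i.1 := by
        rw [rw_cons, rw_nil, mul_one]
      rw [h4] at h3
      rw [← h3]
      exact rw_mem_SS D (Red.snoc D ⟨i.2, hi⟩ hu hn) (by simp)
  exact h2 h1

theorem rw_rho_mem' {u : List (Lt C)} (hu : Red D u) {a b : C} (g : a ⟶ b) :
    rw_ D u * rho D a b g ∈ SS D (u.length + 1) := by
  by_cases hn : nls b u
  · exact rw_rho_mem D hu hn g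
  · unfold nls at hn
    push Not at hn
    obtain ⟨v, x, rfl, hx⟩ := hn
    obtain ⟨b', c, f⟩ := x
    simp only at hx
    subst hx
    have h1 : rw_ D (v ++ [⟨b', c, f⟩]) * rho D a b' g = rw_ D v * rho D a c (g ≫ f) := by
      rw [rw_append, rw_cons, rw_nil, mul_one, mul_assoc, rho_comp]
      rfl
    rw [h1]
    have h2 : nls c v := by
      intro v' y hv hy
      subst hv
      have h3 := hu.2
      rw [List.append_assoc] at h3
      have h4 := h3.right_of_append
      simp at h4
      exact h4 hy
    exact SS_mono D (by simp) (rw_rho_mem D (Red.append_left D hu) h2 _)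

theorem SS_rho {n : ℕ} {s : Module.End k (HH k C)} (hs : s ∈ SS D n) {a b : C} (g : a ⟶ b) :
    s * rho D a b g ∈ SS D (n + 1) := by
  obtain ⟨h, hh, rfl⟩ := hs
  have h1 : PP D n = Submodule.span k ((fun w => Finsupp.single w (1 : k)) '' {w | Red D w ∧ w.length ≤ n}) :=
    Finsupp.supported_eq_span_single k _
  have h2 : PP D n ≤ (SS D (n + 1)).comap ((LinearMap.mulRight k (rho D a b g : Module.End k (HH k C))) ∘ₗ (Lam D)) := by
    rw [h1, Submodule.span_le]
    rintro _ ⟨w, ⟨hw, hn⟩, rfl⟩
    rw [SetLike.mem_coe, Submodule.mem_comap, LinearMap.comp_apply, LinearMap.mulRight_apply]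
    simp only
    rw [Lam_single, one_smul]
    exact SS_mono D (by omega) (rw_rho_mem' D hw g)
  exact h2 hh

theorem SS_rw {n : ℕ} {s : Module.End k (HH k C)} (hs : s ∈ SS D n) (v : List (Lt C)) :
    s * rw_ D v ∈ SS D (n + v.length) := by
  induction v using List.reverseRecOn with
  | nil => rw [rw_nil, mul_one]; exact hs
  | append_singleton v x ih =>
    rw [rw_append, rw_cons, rw_nil, mul_one, ← mul_assoc, List.length_append]
    exact SS_rho D ih _

theorem SS_mul {n m : ℕ} {s t : Module.End k (HH k C)} (hs : s ∈ SS D n) (ht : t ∈ SS D m) :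
    s * t ∈ SS D (n + m) := by
  obtain ⟨h, hh, rfl⟩ := ht
  have h1 : PP D m = Submodule.span k ((fun w => Finsupp.single w (1 : k)) '' {w | Red D w ∧ w.length ≤ m}) :=
    Finsupp.supported_eq_span_single k _
  have h2 : PP D m ≤ (SS D (n + m)).comap ((LinearMap.mulLeft k s) ∘ₗ (Lam D)) := by
    rw [h1, Submodule.span_le]
    rintro _ ⟨w, ⟨hw, hn⟩, rfl⟩
    rw [SetLike.mem_coe, Submodule.mem_comap, LinearMap.comp_apply, LinearMap.mulLeft_apply]
    simp only
    rw [Lam_single, one_smul]
    exact SS_mono D (by omega) (SS_rw D hs w)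
  exact h2 hh

end

end H920NORE
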