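import Pool.Agent.H920R3.NORE.B

set_option autoImplicit false

open CategoryTheory

namespace H920NORE

/-- decomposition of the elements of a span -/
theorem span_dec {k : Type} [Field k] {I : Type} (V : I → Type) [∀ i, AddCommGroup (V i)]
    [∀ i, Module k (V i)] {M : Type} [AddCommGroup M] [Module k M] (φ : ∀ i, V i →ₗ[k] M)
    (P : I → Prop) (S : Set M) (hS : ∀ x ∈ S, ∃ i, P i ∧ ∃ v, φ i v = x) (y : M)
    (hy : y ∈ Submodule.span k S) :
    ∃ (T : Finset I) (G : ∀ i, V i), (∀ i ∈ T, P i) ∧ y = ∑ i ∈ T, φ i (G i) := by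
  classical
  induction hy using Submodule.span_induction with
  | mem x hx =>
    obtain ⟨i, hi, v, rfl⟩ := hS x hx
    refine ⟨{i}, Function.update (fun _ => 0) i v, by simpa using hi, ?_⟩
    rw [Finset.sum_singleton, Function.update_self]
  | zero => exact ⟨∅, fun _ => 0, by simp, by simp⟩
  | add x y _ _ hx hy =>
    obtain ⟨T1, G1, h1, rfl⟩ := hx
    obtain ⟨T2, G2, h2, rfl⟩ := hy
    refine ⟨T1 ∪ T2, fun i => (if i ∈ T1 then G1 i else 0) + (if i ∈ T2 then G2 i else 0), ?_, ?_⟩
    · intro i hi
      rcases Finset.mem_union.1 hi with h | h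
      · exact h1 i h
      · exact h2 i h
    · have e1 : ∀ (T : Finset I) (G : ∀ i, V i), T ⊆ T1 ∪ T2 →
          ∑ i ∈ T, φ i (G i) = ∑ i ∈ T1 ∪ T2, φ i (if i ∈ T then G i else 0) := by
        intro T G hT
        rw [← Finset.sum_subset hT]
        · apply Finset.sum_congr rfl
          intro i hi
          rw [if_pos hi]
        · intro i _ hi
          rw [if_neg hi, map_zero]
      rw [e1 T1 G1 Finset.subset_union_left, e1 T2 G2 Finset.subset_union_right,
        ← Finset.sum_add_distrib]
      apply Finset.sum_congr rfl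
      intro i _
      rw [map_add]
  | smul c x _ hx =>
    obtain ⟨T, G, h1, rfl⟩ := hx
    refine ⟨T, fun i => c • G i, h1, ?_⟩
    rw [Finset.smul_sum]
    apply Finset.sum_congr rfl
    intro i _
    rw [map_smul]

section
variable {k : Type} [Field k] {C : Type} [SmallCategory C] [Preadditive C] [Linear k C]
variable (D : BD k C)

theorem Red.app {u w : List (Lt C)} {x z : Lt C} (hu : Red D (u ++ [x])) (hw : Red D (z :: w))
    (h : x.1 ≠ z.2.1) : Red D ((u ++ [x]) ++ z :: w) := by
  refine ⟨?_, ?_⟩
  · intro y hy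
    rcases List.mem_append.1 hy with hy | hy
    · exact hu.1 y hy
    · exact hw.1 y hy
  · rw [List.isChain_append]
    refine ⟨hu.2, hw.2, ?_⟩
    intro y hy y' hy'
    simp at hy hy'
    subst hy hy'
    exact h

theorem Red.mid {u w : List (Lt C)} {x : Lt C} (hu : Red D u) (hx : H920NORE.good D x)
    (hn : nls x.2.1 u) (hw : Red D w) (hd : ¬ dec D x.1 w) : Red D (u ++ x :: w) := by
  have h1 := Red.cons D hx hw hd
  rcases List.eq_nil_or_concat u with rfl | ⟨v, y, rfl⟩
  · exact h1
  · rw [List.concat_eq_append] at hu hn ⊢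
    exact Red.app D hu h1 (hn v y rfl)

theorem low {u w : List (Lt C)} (hu : Red D u) (hw : Red D w) (h : ¬ Red D (u ++ w)) :
    ∃ N, N < u.length + w.length ∧ rw_ D u (Finsupp.single w 1) ∈ PP D N := by
  rcases List.eq_nil_or_concat u with rfl | ⟨v, x, rfl⟩
  · exact absurd hw h
  rw [List.concat_eq_append] at *
  cases w with
  | nil => rw [List.append_nil] at h; exact absurd hu h
  | cons z w =>
    have hxz : x.1 = z.2.1 := by
      by_contra hne
      exact h (Red.app D hu hw hne)
    obtain ⟨b, c, f⟩ := x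
    obtain ⟨a, b', g⟩ := z
    simp only at hxz
    subst hxz
    refine ⟨w.length + 1 + v.length, by simp; omega, ?_⟩
    rw [rw_append, Module.End.mul_apply]
    apply rw_mem
    have h1 : rw_ D [⟨b, c, f⟩] = rho D b c f := by rw [rw_cons, rw_nil, mul_one]
    rw [h1, rho_single, actL_dec D hw.good hw.not_dec]
    exact insL_mem D hw.tail hw.not_dec _

theorem top_coeff {n m : ℕ} {h y : HH k C} (hh : h ∈ PP D n) (hy : y ∈ PP D m)
    {u1 w1 : List (Lt C)} (hu1 : u1.length = n) (hw1 : w1.length = m) (hr : Red D (u1 ++ w1)) :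
    (Lam D h y) (u1 ++ w1) = h u1 * y w1 := by
  classical
  have e1 : ∀ N, PP D N = Submodule.span k ((fun w => Finsupp.single w (1 : k)) '' {w | Red D w ∧ w.length ≤ N}) :=
    fun N => Finsupp.supported_eq_span_single k _
  rw [e1] at hh hy
  induction hh using Submodule.span_induction with
  | zero => simp
  | add a b _ _ ha hb =>
    rw [map_add, LinearMap.add_apply, Finsupp.add_apply, ha, hb, Finsupp.add_apply, add_mul]
  | smul c a _ ha =>
    rw [map_smul, LinearMap.smul_apply, Finsupp.smul_apply, ha, Finsupp.smul_apply, smul_eq_mul,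
      smul_eq_mul, mul_assoc]
  | mem a ha =>
    obtain ⟨u, ⟨hu, hun⟩, rfl⟩ := ha
    simp only
    rw [Lam_single, one_smul]
    induction hy using Submodule.span_induction with
    | zero => simp
    | add a b _ _ ha hb =>
      rw [map_add, Finsupp.add_apply, ha, hb, Finsupp.add_apply, mul_add]
    | smul c a _ ha =>
      rw [map_smul, Finsupp.smul_apply, ha, Finsupp.smul_apply, smul_eq_mul, smul_eq_mul]
      ring
    | mem a ha =>
      obtain ⟨w, ⟨hw, hwm⟩, rfl⟩ := ha
      simp only
      by_cases heq : u = u1 ∧ w = w1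
      · obtain ⟨rfl, rfl⟩ := heq
        rw [rw_single D hr]
        simp
      · have hR : (Finsupp.single u (1 : k)) u1 * (Finsupp.single w (1 : k)) w1 = 0 := by
          by_cases h1 : u = u1
          · have h2 : w ≠ w1 := fun h2 => heq ⟨h1, h2⟩
            rw [Finsupp.single_apply, Finsupp.single_apply, if_neg h2, mul_zero]
          · rw [Finsupp.single_apply, if_neg h1, zero_mul]
        rw [hR]
        by_cases hred : Red D (u ++ w)
        · rw [rw_single D hred, Finsupp.single_apply, if_neg]
          intro h1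
          by_cases hl : u.length = u1.length
          · exact heq (List.append_inj h1 hl)
          · have := congrArg List.length h1
            simp at this
            omega
        · obtain ⟨N, hN, hmem⟩ := low D hu hw hred
          apply coeff_PP D hmem
          simp
          omega

theorem mid_coeff {a0 c b : C} {u w u0 w0 : List (Lt C)} {z : Lt C} (hu : Red D u) (hn : nls b u)
    (hw : Red D w) (hd : ¬ dec D c w) (hlu : u.length ≤ u0.length) (hlw : w.length ≤ w0.length)
    (i : D.B c b) : 
    (isid i.1 → (rw_ D u (insL D w c b i.1)) (u0 ++ z :: w0) = 0) ∧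
    (¬ isid i.1 → (rw_ D u (insL D w c b i.1)) = Finsupp.single (u ++ ⟨c, b, i.1⟩ :: w) 1) := by
  constructor
  · rintro hid
    rw [insL_basis]
    have h3 : star D w i = w := by unfold star; rw [if_pos hid]
    rw [h3]
    have h4 := rw_mem D u (single_mem D hw le_rfl (1 : k))
    apply coeff_PP D h4
    simp
    omega
  · intro hid
    rw [insL_basis]
    have h3 : star D w i = ⟨c, b, i.1⟩ :: w := by unfold star; rw [if_neg hid]
    rw [h3, rw_single D (Red.mid D (x := ⟨c, b, i.1⟩) hu ⟨i.2, hid⟩ hn hw hd)]

/-- off-diagonal coefficients vanish -/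
theorem mid_zero {c b : C} {u w u0 w0 : List (Lt C)} {z : Lt C} (hu : Red D u) (hn : nls b u)
    (hw : Red D w) (hd : ¬ dec D c w) (hlu : u.length ≤ u0.length) (hlw : w.length ≤ w0.length)
    (hne : ¬ (c = z.1 ∧ b = z.2.1 ∧ u = u0 ∧ w = w0)) (g : c ⟶ b) :
    (rw_ D u (insL D w c b g)) (u0 ++ z :: w0) = 0 := by
  classical
  have h1 : g ∈ Submodule.span k (Set.range (D.bs c b)) := by rw [(D.bs c b).span_eq]; trivial
  induction h1 using Submodule.span_induction with
  | zero => simp
  | add a b _ _ ha hb => rw [map_add, map_add, Finsupp.add_apply, ha, hb, add_zero]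
  | smul r a _ ha => rw [map_smul, map_smul, Finsupp.smul_apply, ha, smul_zero]
  | mem a ha =>
    obtain ⟨i, rfl⟩ := ha
    rw [D.val]
    have h2 := mid_coeff D (a0 := c) (z := z) hu hn hw hd hlu hlw i
    by_cases hid : isid i.1
    · exact h2.1 hid
    · rw [h2.2 hid, Finsupp.single_apply, if_neg]
      intro h3
      have h4 := congrArg List.length h3
      simp at h4
      have h5 := List.append_inj h3 (by omega)
      obtain ⟨h6, h7⟩ := List.cons.inj h5.2
      apply hne
      subst h6
      exact ⟨rfl, rfl, h5.1, h7⟩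

/-- diagonal coefficients -/
theorem mid_diag {c b : C} {u w : List (Lt C)} (hu : Red D u) (hn : nls b u)
    (hw : Red D w) (hd : ¬ dec D c w) (j : D.B c b) (hj : ¬ isid j.1) (g : c ⟶ b) :
    (rw_ D u (insL D w c b g)) (u ++ ⟨c, b, j.1⟩ :: w) = (D.bs c b).repr g j := by
  classical
  have h1 : g ∈ Submodule.span k (Set.range (D.bs c b)) := by rw [(D.bs c b).span_eq]; trivial
  induction h1 using Submodule.span_induction with
  | zero => simp
  | add a b _ _ ha hb => rw [map_add, map_add, Finsupp.add_apply, ha, hb, map_add, Finsupp.add_apply]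
  | smul r a _ ha => rw [map_smul, map_smul, Finsupp.smul_apply, ha, map_smul, Finsupp.smul_apply]
  | mem a ha =>
    obtain ⟨i, rfl⟩ := ha
    rw [(D.bs c b).repr_self, D.val]
    have h2 := mid_coeff D (a0 := c) (z := (⟨c, b, j.1⟩ : Lt C)) hu hn hw hd le_rfl le_rfl i
    by_cases hid : isid i.1
    · rw [h2.1 hid, Finsupp.single_apply, if_neg]
      rintro rfl
      exact hj hid
    · rw [h2.2 hid]
      by_cases hij : i = j
      · subst hij; simp
      · rw [Finsupp.single_apply, Finsupp.single_apply, if_neg hij, if_neg]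
        intro h3
        have h5 := List.append_inj h3 rfl
        obtain ⟨h6, h7⟩ := List.cons.inj h5.2
        have h8 := eq_of_heq (Sigma.mk.inj h6).2
        have h9 := eq_of_heq (Sigma.mk.inj h8).2
        exact hij (Subtype.ext h9)

theorem only_id {c b : C} (g : c ⟶ b) (h : ∀ j : D.B c b, ¬ isid j.1 → (D.bs c b).repr g j = 0) :
    (∃ (e : c = b) (l : k), g = l • eqToHom e) ∨ g = 0 := by
  classical
  by_cases e : c = b
  · left
    subst e
    let i0 : D.B c c := ⟨𝟙 c, D.one c⟩
    refine ⟨rfl, (D.bs c c).repr g i0, ?_⟩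
    apply (D.bs c c).ext_elem
    intro j
    rw [eqToHom_refl, map_smul, Finsupp.smul_apply]
    have h1 : (𝟙 c : c ⟶ c) = D.bs c c i0 := (D.val c c i0).symm
    rw [h1, (D.bs c c).repr_self, Finsupp.single_apply]
    by_cases hj : i0 = j
    · subst hj; simp
    · rw [if_neg hj, smul_zero]
      apply h
      rintro ⟨h2, h3⟩
      apply hj
      apply Subtype.ext
      rw [h3]; simp [i0]
  · right
    apply (D.bs c b).ext_elem
    intro j
    rw [h j (fun ⟨h2, _⟩ => e h2)]
    simp

end

end H920NORE
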